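import Pool.Agent.Lib.TSYM46.Conn

/-!
# MP_fe6961_an: circle-symmetric Tonelli Lagrangians

Let `M` be a closed connected manifold and `L` a Tonelli Lagrangian on `TM` which is invariant
under a nontrivial smooth action of the circle.  Then EVERY nonempty energy level `{E = k}`
contains a periodic orbit or a singularity.  No value of `k` is excluded, `k = c_u(L)` included.

Idea: on the family of curves `t ↦ Φ_{ct}(x)` the free period action is
`A(x, c) = (L(x, c ξ(x)) + k) / c`, where `ξ` generates the circle action.  The largest `s` such
that `A(x, ·) ≥ s` for some `x` is attained (compactness of `M`), is positive for one of the two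
orientations of the circle, and superlinearity and convexity in the fibre turn the extremal pair
into a critical point of the action on the level `k`, which gives an extremal by symmetry.
-/

namespace Pool.Agent.Results.MP_fe6961_an.CircleSymmetric

open Manifold ContDiff Pool.Agent.TSYM46

theorem result {E : Type*} [NormedAddCommGroup E] [NormedSpace ℝ E] [FiniteDimensional ℝ E]
    {M : Type*} [TopologicalSpace M] [ChartedSpace E M] [IsManifold 𝓘(ℝ, E) ∞ M]
    [CompactSpace M] [T2Space M] [ConnectedSpace M]
    (L : TangentBundle 𝓘(ℝ, E) M → ℝ) (hL : IsTonelli L)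
    (Φ : ℝ → M → M) (hΦ : IsCircleAction (E := E) Φ) (hmove : ∃ t x, Φ t x ≠ x)
    (hinv : IsInvariant L Φ) (k : ℝ) (hk : ∃ p, energy L p = k) :
    HasSingularity L k ∨ HasPeriodicOrbit L k := by
  obtain ⟨x, c, h1, h2⟩ := main_connected hΦ hmove hL hinv k hk
  exact sing_or_periodic hΦ h1 h2

end Pool.Agent.Results.MP_fe6961_an.CircleSymmetric
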