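import Pool.Agent.Lib.MP_fe6961_an.Asm10
import Pool.Agent.Lib.MP_fe6961_an.Hyp53
import Pool.Agent.Lib.MP_fe6961_an.EXT45
import Pool.Agent.Lib.MP_fe6961_an.RAT53
import Pool.Agent.Lib.MP_fe6961_an.HAM53

/-!
# MP_fe6961_an: left invariant Tonelli systems on closed homogeneous three-manifolds

Let `G` be `ℝ² ⋊ ℝ`, where `s` acts on the plane by a one-parameter group `R s` of `SL(2, ℝ)` with
generator `D`, `det D ≠ 0` (the group `Sol` and the universal cover of the group of motions of the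
plane), or let `G = SL(2, ℝ)`.  Let `M = Γ \ G` be closed and let `H` be a left invariant Tonelli
Hamiltonian on the cotangent bundle of `M`.  Then EVERY nonempty level `{H = k}` contains a
singularity or a periodic orbit.

Idea: on the level `{h = k}` in the dual of the Lie algebra take an extremal point of the
Casimir function off its null cone: there the momentum is constant and the velocity `∇h` is a
nonzero multiple of the gradient of the Casimir.  So the orbit is the translate of a one-parameter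
subgroup, and the translation can be chosen such that this one closes up in `Γ \ G`: a rational
direction of the plane, or a conjugate of a hyperbolic element of `Γ`.
-/

open Filter Matrix

namespace Pool.Agent.Results.MP_fe6961_an.HomogeneousThreeManifolds

open Pool.Agent.Lib.Hom

/-- `br` is the bracket of `sl(2, ℝ)` in the coordinates `X`. -/
theorem X_br (x y : E3) : X (br x y) = X x * X y - X y * X x := by
  have e0 : br x y 0 = -2 * (x 1 * y 2 - x 2 * y 1) := rfl
  have e1 : br x y 1 = -2 * (x 2 * y 0 - x 0 * y 2) := rfl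
  have e2 : br x y 2 = 2 * (x 0 * y 1 - x 1 * y 0) := rfl
  ext i j
  fin_cases i <;> fin_cases j <;>
    simp [X, e0, e1, e2] <;> ring

theorem result :
    (∀ (R : ℝ → Matrix (Fin 2) (Fin 2) ℝ) (D : Matrix (Fin 2) (Fin 2) ℝ) (h : E3 → ℝ),
      OnePar R D → D.det ≠ 0 → Ton h → ∀ k, (∃ p, h p = k) →
      (∃ x ξ, HSol R h x ξ = k ∧ IsOrbit (HSol R h) (fun _ => x) (fun _ => ξ)) ∨
      ∃ (x ξ : ℝ → E3), IsOrbit (HSol R h) x ξ ∧ (∀ t, HSol R h (x t) (ξ t) = k) ∧
        ∃ T > 0, ∃ w : Fin 2 → ℤ, w ≠ 0 ∧ ∀ t, x (t + T) = x t + iv w ∧ ξ (t + T) = ξ t) ∧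
    (∀ (h : E3 → ℝ) (Γ : Set (Matrix (Fin 2) (Fin 2) ℝ)), Ton h → 1 ∈ Γ →
      (∃ γ ∈ Γ, γ.det = 1 ∧ 2 < γ.trace) → ∀ k, (∃ p, h p = k) →
      (∃ p, h p = k ∧ gradient h p = 0) ∨
      ∃ (g : ℝ → Matrix (Fin 2) (Fin 2) ℝ) (p : E3), (∀ t, (g t).det = 1) ∧
        IsOrbit2 h g (fun _ => p) ∧ h p = k ∧ gradient h p ≠ 0 ∧
        ∃ T > 0, ∃ γ ∈ Γ, ∀ t, g (t + T) = γ * g t) :=
  ⟨sol_10 E45.ext45 RAT53.rat53 HAM53.ham53,
    sl2_10 E45.ext45 Pool.Agent.Lib.MP_fe6961_an.Hyp53.hyp53⟩

end Pool.Agent.Results.MP_fe6961_an.HomogeneousThreeManifolds
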