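import Pool.Agent.Lib.MP_fe6961_an.MNOB10
import Pool.Agent.Lib.MP_fe6961_an.EX45
import Pool.Agent.Lib.MP_fe6961_an.SL95

/-!
# MP_fe6961_an: solvable groups of maximal rank

Let `G = ℝⁿ ⋊ ℝᵐ`, where `s` acts on `ℝⁿ` by the diagonal matrix with the entries `exp (X s)_l`; the
columns of `X` have sum zero (`G` is unimodular) and `X` maps onto the hyperplane of the vectors of
sum zero (maximal rank; `m = n - 1` if the action is faithful, `n = 2` is the group `Sol`).  Let
`Γ \ G` be closed and `P ℤⁿ` the lattice `Γ ∩ ℝⁿ` (for example the solvmanifolds of the units of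
totally real number fields).  Let `H` be any left invariant Tonelli Hamiltonian.  Then EVERY nonempty
level `{H = k}` contains a singularity or a periodic orbit.

Idea: on the level take a maximum `p` of the square of the Casimir function `p_1 ⋯ p_n`.  There
`∇h` is `κ / p_l` in the coordinates of `ℝⁿ` and zero in the others, so the orbit through `p` runs in
a fibre `ℝⁿ` in a fixed direction, and by the maximal rank the place `s` can be chosen such that this
direction is the one of a given lattice vector with the right signs.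
-/

open Filter Matrix

namespace Pool.Agent.Results.MP_fe6961_an.MaximalRankSolvable

open Pool.Agent.Lib.MR

theorem result {n m : ℕ} (hn : 0 < n) (X : Matrix (Fin n) (Fin m) ℝ) (hX : ∀ j, ∑ l, X l j = 0)
    (hX' : ∀ y : Fin n → ℝ, ∑ l, y l = 0 → ∃ s : Fin m → ℝ, X *ᵥ s = y)
    (P : Matrix (Fin n) (Fin n) ℝ) (hP : P.det ≠ 0) (h : F n m → ℝ) (hh : TonF h)
    (k : ℝ) (hk : ∃ p, h p = k) :
    (∃ x ξ, HX X h x ξ = k ∧ IsOrb (HX X h) (fun _ => x) (fun _ => ξ)) ∨
    ∃ (x ξ : ℝ → F n m), IsOrb (HX X h) x ξ ∧ (∀ t, HX X h (x t) (ξ t) = k) ∧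
      ∃ T > 0, ∃ w : Fin n → ℤ, w ≠ 0 ∧
        ∀ t, x (t + T) = x t + vec (P *ᵥ (fun i => (w i : ℝ))) 0 ∧ ξ (t + T) = ξ t :=
  mr_10 MO10.mn10 EX45.ex45 sl95 MO10.ob10 n m X P h hn hX hX' hP hh k hk

end Pool.Agent.Results.MP_fe6961_an.MaximalRankSolvable
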