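import Pool.Agent.Lib.MP_fe6961_an.LMCA10
import Pool.Agent.Lib.MP_fe6961_an.ORBN40
import Pool.Agent.Lib.MP_fe6961_an.PULN40
import Pool.Agent.Lib.MP_fe6961_an.DIR53
import Pool.Agent.Lib.MP_fe6961_an.GROW84
import Pool.Agent.Lib.MP_fe6961_an.KEY84
import Pool.Agent.Lib.MP_fe6961_an.AsmN40

/-!
# MP_fe6961_an: torus bundles over the circle

Let `M` be the mapping torus of a linear automorphism `B` in `GL(n, ℤ)` of the `n`-dimensional
torus, `n ≥ 1`, and let `H` be a Tonelli Hamiltonian on the cotangent bundle of `M` which is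
invariant under the translations of the fibres (if no power of `B` has a fixed vector, these
translations do not act on `M`, only on the cover `ℝⁿ × ℝ`).  Then EVERY nonempty level `{H = k}`
contains a singularity or a periodic orbit.

Idea: for `w` in `ℤⁿ` let `φ_w(s)` be the maximum of `⟨w, ξ⟩` over the compact convex set
`K_s = {ξ : H(s, ξ) ≤ k}`.  At an extremal point `s` of `φ_w` some maximal point `ξ` of `K_s` has
`∂H/∂s = 0` (an argument of Danskin type on the face) and `∂H/∂ξ` parallel to `w`: the orbit runs
in the fibre over `s` in the direction `w` and closes up.  If some `K_s` is empty or `B^m w = w`,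
a maximum exists.  If all `K_s` have interior points and no power of `B` has a fixed integer vector,
then some `φ_w` is larger at both sides than at `0`, so it has an interior minimum: otherwise the
orbit of an interior point `p` of `K_0` under the transpose of `B⁻¹` would have
`⟨w, p_j⟩ → -∞` at one end and `+∞` at the other for every integer `w ≠ 0`; then its directions
converge at both ends to opposite vectors `±e`, `e` is an eigenvector with the same eigenvalue at
both ends, which must be `1`, and an integer fixed vector exists.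
-/

open Filter Matrix

namespace Pool.Agent.Results.MP_fe6961_an.TorusBundles

open Pool.Agent.Lib.TorN

theorem result {n : ℕ} (hn : 0 < n) (H : ℝ → EN n → ℝ) (B : Matrix (Fin n) (Fin n) ℤ)
    (hT : TonN H) (hB : IsUnit B.det) (hper : ∀ s ξ, H (s + 1) ξ = H s (pull B ξ))
    (k : ℝ) (hk : ∃ s ξ, H s ξ = k) :
    (∃ x ξ, HT H x ξ = k ∧ IsOrbit (HT H) (fun _ => x) (fun _ => ξ)) ∨
    ∃ (x ξ : ℝ → EN n), IsOrbit (HT H) x ξ ∧ (∀ t, HT H (x t) (ξ t) = k) ∧
      ∃ T > 0, ∃ w : Fin n → ℤ, w ≠ 0 ∧ ∀ t, x (t + T) = x t + iv w ∧ ξ (t + T) = ξ t :=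
  AsmN40.asm40 LM10.lagN LM10.maxN LM10.coreN LM10.attN ORBN40.orbN40 PULN40.puln40
    (KEY84.key84 DIR53.dir53 GROW84.grow84 PULN40.puln40) n H B hn hT hB hper k hk

end Pool.Agent.Results.MP_fe6961_an.TorusBundles
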